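import Pool.Agent.W593.ZT.Stm

/-! Project ZT, part ZT-BT -/

set_option linter.unusedSectionVars false

open scoped Classical

namespace Pool.Agent.W446.ZT

open Pool.Agent.W593.ZT

variable {V G : Type} [Fintype V]

lemma n13 (c : V → V → G) (B : Finset V) : n1 c B + n3 c B ≤ (Finset.univ \ B).card := by
  unfold n1 n3
  rw [← Finset.card_union_of_disjoint]
  · refine Finset.card_le_card fun z hz => ?_
    rcases Finset.mem_union.1 hz with h | h
    · exact (Finset.mem_filter.1 h).1
    · exact (Finset.mem_filter.1 h).1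
  · rw [Finset.disjoint_left]
    intro z h1 h2
    have e1 := (Finset.mem_filter.1 h1).2
    have e2 := (Finset.mem_filter.1 h2).2
    omega

lemma n1_mono (c : V → V → G) (T B : Finset V) (hT : T.Nonempty) (h : T ⊆ B) :
    n1 c B ≤ n1 c T := by
  unfold n1
  refine Finset.card_le_card fun z hz => ?_
  obtain ⟨h1, h2⟩ := Finset.mem_filter.1 hz
  refine Finset.mem_filter.2 ⟨Finset.sdiff_subset_sdiff subset_rfl h h1, ?_⟩
  have h3 : (Cs c T z).card ≤ (Cs c B z).card := Finset.card_le_card (Finset.image_subset_image h)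
  have h4 : 0 < (Cs c T z).card := Finset.card_pos.2 (hT.image _)
  omega

lemma pick {W : Finset V} {f : V → ℤ} {k t : ℤ} (h : t ≤ ∑ w ∈ W, f w) (ht : k * W.card < t) :
    ∃ w ∈ W, k < f w := by
  refine Finset.exists_lt_of_sum_lt ?_
  rw [Finset.sum_const, nsmul_eq_mul]
  have : (W.card : ℤ) * k = k * W.card := mul_comm _ _
  rw [this]
  exact ht.trans_le h

theorem bt (hGAIN : S_GAIN) (hFFN : S_FFN) (hMONO : S_MONO) : S_BT := by
  intro V G _ _ _ c hc r hr2 hrm hR T hT hn1
  have hcard := hc.card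
  set m := Fintype.card G with hm
  have hcV : (Finset.univ : Finset V).card = m + 1 := by rw [Finset.card_univ]; exact hcard
  have hTne : T.Nonempty := Finset.card_pos.1 (by omega)
  have hF := hFFN V G c T hTne
  have hG := hGAIN V G c hc r hR T hTne
  have hW : (Finset.univ \ T).card = m - 2 := by
    rw [Finset.card_sdiff_of_subset (Finset.subset_univ T)]; omega
  have h13 := n13 c T
  have hWz : ((Finset.univ \ T).card : ℤ) = (m : ℤ) - 2 := by rw [hW]; push_cast [show 2 ≤ m by omega]; ring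
  have hm4 : 4 ≤ m := by omega
  -- a vertex w outside B
  have ins : ∀ (B : Finset V) (w : V), w ∈ Finset.univ \ B → (insert w B).card = B.card + 1 := by
    intro B w hw
    exact Finset.card_insert_of_notMem (Finset.mem_sdiff.1 hw).2
  by_cases hd0 : n1 c T + 1 ≤ n3 c T
  · left
    exact ⟨T, by omega, by omega, by omega⟩
  by_cases hd1 : n1 c T = n3 c T
  · left
    obtain ⟨w, hw, hw2⟩ := pick (k := 0) hG (by
      rw [hWz]
      have h1 : (n3 c T : ℤ) = n1 c T := by exact_mod_cast hd1.symm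
      rw [h1]
      have h2 : (2 : ℤ) * n1 c T ≤ m - 2 := by
        have : 2 * n1 c T + 2 ≤ m := by omega
        have : ((2 * n1 c T + 2 : ℕ) : ℤ) ≤ m := by exact_mod_cast this
        push_cast at this; linarith
      have h3 : (4 : ℤ) ≤ m := by exact_mod_cast hm4
      have h4 : (2 : ℤ) ≤ r := by exact_mod_cast hr2
      have h5 : ((r : ℤ) - 1) * (m - 2) + 2 * n1 c T - (r + 1) * n1 c T =
        (r - 1) * (m - 2 - n1 c T) := by ring
      rw [h5]
      have h6 : (0 : ℤ) < (r - 1) * (m - 2 - n1 c T) := by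
        apply mul_pos <;> linarith
      linarith)
    refine ⟨insert w T, ?_, ?_, ?_⟩
    · rw [ins T w hw]; omega
    · rw [ins T w hw]; omega
    · omega
  have hd2 : n3 c T + 1 ≤ n1 c T := by omega
  -- d ≥ 2
  obtain ⟨w, hw, hw2⟩ := pick (k := (n1 c T : ℤ) - n3 c T - 1) hG (by
    rw [hWz]
    have h1 : (n3 c T : ℤ) + 1 ≤ n1 c T := by exact_mod_cast hd2
    have h2 : (n1 c T : ℤ) ≤ r := by exact_mod_cast hn1
    have h3 : (4 : ℤ) ≤ m := by exact_mod_cast hm4
    have h4 : (2 : ℤ) ≤ r := by exact_mod_cast hr2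
    have h5 : (r : ℤ) + 2 ≤ m := by exact_mod_cast hrm
    have h0 : (0 : ℤ) ≤ n3 c T := by positivity
    have e : ((r : ℤ) - 1) * (m - 2) + 2 * n1 c T - (r + 1) * n3 c T -
      ((n1 c T : ℤ) - n3 c T - 1) * (m - 2) = (r - n1 c T) * (m - 2) + n3 c T * (m - 2 - r) +
        (2 * n1 c T - n3 c T) := by ring
    have h6 : (0 : ℤ) ≤ (r - n1 c T) * (m - 2) := mul_nonneg (by linarith) (by linarith)
    have h7 : (0 : ℤ) ≤ n3 c T * (m - 2 - r) := mul_nonneg h0 (by linarith)
    linarith)
  set B1 := insert w T with hB1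
  have hB1c : B1.card = 4 := by rw [hB1, ins T w hw]; omega
  have hB1ne : B1.Nonempty := Finset.card_pos.1 (by omega)
  have hF1 := hFFN V G c B1 hB1ne
  by_cases hfin : m ≤ FF c B1 + 1
  · left
    exact ⟨B1, by omega, by omega, hfin⟩
  have hFB1 : FF c B1 + 2 = m := by omega
  have hn31 : n3 c B1 = n1 c B1 + 1 := by omega
  have hmono : n1 c B1 ≤ n1 c T := n1_mono c T B1 hTne (Finset.subset_insert _ _)
  have hG1 := hGAIN V G c hc r hR B1 hB1ne
  have hW1 : (Finset.univ \ B1).card = m - 3 := by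
    rw [Finset.card_sdiff_of_subset (Finset.subset_univ B1)]; omega
  have hW1z : ((Finset.univ \ B1).card : ℤ) = (m : ℤ) - 3 := by
    rw [hW1]; push_cast [show 3 ≤ m by omega]; ring
  have h131 := n13 c B1
  -- second step
  have second : (r : ℤ) + 1 < ((r : ℤ) - 1) * ((m : ℤ) - 3 - n1 c B1) →
      ∃ B : Finset V, 2 ≤ B.card ∧ B.card ≤ 5 ∧ m ≤ FF c B + 1 := by
    intro hlt
    obtain ⟨w', hw', hw2'⟩ := pick (k := 0) hG1 (by
      rw [hW1z, hn31]
      push_cast
      have : ((r : ℤ) - 1) * (m - 3) + 2 * n1 c B1 - (r + 1) * (n1 c B1 + 1) =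
        (r - 1) * (m - 3 - n1 c B1) - (r + 1) := by ring
      rw [this]; linarith)
    refine ⟨insert w' B1, ?_, ?_, ?_⟩
    · rw [ins B1 w' hw']; omega
    · rw [ins B1 w' hw']; omega
    · omega
  -- r ≤ m - 4
  have hr4 : r + 4 ≤ m := by
    have hpos : 0 < n1 c T := by omega
    obtain ⟨z, hz⟩ := Finset.card_pos.1 hpos
    obtain ⟨hz1, hz2⟩ := Finset.mem_filter.1 hz
    obtain ⟨e, he⟩ := Finset.card_eq_one.1 hz2
    have hce : ∀ t ∈ T, c z t = e := by
      intro t ht
      have : c z t ∈ Cs c T z := Finset.mem_image_of_mem _ ht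
      rw [he] at this
      exact Finset.mem_singleton.1 this
    obtain ⟨p, hp1, hp2, -⟩ := hMONO V G c hc z e
    have hRs := hR z e (c z p) (Ne.symm hp2)
    have hzT : z ∉ T := (Finset.mem_sdiff.1 hz1).2
    have hpT : p ∉ T := fun h => hp2 (hce p h)
    have hsub : Rs c z e (c z p) ⊆ Finset.univ \ (insert z (insert p T)) := by
      intro y hy
      obtain ⟨-, h1, h2, h3⟩ := Finset.mem_filter.1 hy
      rw [Finset.mem_sdiff]
      refine ⟨Finset.mem_univ _, ?_⟩
      rw [Finset.mem_insert, Finset.mem_insert]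
      push Not
      refine ⟨h1, ?_, ?_⟩
      · rintro rfl; exact h3 rfl
      · intro h; exact h2 (hce y h)
    have h5 : (insert z (insert p T)).card = 5 := by
      rw [Finset.card_insert_of_notMem, Finset.card_insert_of_notMem hpT, hT]
      rw [Finset.mem_insert]
      push Not
      exact ⟨Ne.symm hp1, hzT⟩
    have h6 := Finset.card_le_card hsub
    rw [Finset.card_sdiff_of_subset (Finset.subset_univ _), h5, hcV] at h6
    omega
  have hn1' : 2 * n1 c B1 + 4 ≤ m := by omega
  rcases Nat.lt_or_ge 2 r with h3 | h3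
  · left
    apply second
    have e1 : (3 : ℤ) ≤ r := by exact_mod_cast h3
    have e2 : (2 : ℤ) * n1 c B1 + 4 ≤ m := by exact_mod_cast hn1'
    have e3 : (r : ℤ) + 4 ≤ m := by exact_mod_cast hr4
    have e4 : (r : ℤ) + 2 ≤ 2 * (m - 3 - n1 c B1) := by linarith
    have e5 : ((r : ℤ) - 1) * (r + 2) ≤ (r - 1) * (2 * (m - 3 - n1 c B1)) :=
      mul_le_mul_of_nonneg_left e4 (by linarith)
    have e6 : (0 : ℤ) ≤ (r - 3) * (r + 2) := mul_nonneg (by linarith) (by linarith)
    linarith
  · have hr : r = 2 := by omega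
    subst hr
    rcases Nat.lt_or_ge 8 m with h9 | h9
    · left
      apply second
      have e1 : (9 : ℤ) ≤ m := by exact_mod_cast h9
      have e2 : (n1 c B1 : ℤ) ≤ 2 := by exact_mod_cast hmono.trans hn1
      push_cast
      linarith
    · by_cases hex : n1 c T = 2 ∧ n3 c T = 0
      · right
        exact ⟨rfl, hex.1, hex.2, by omega, h9⟩
      · left
        have hcase : n1 c T = n3 c T + 1 := by omega
        have hle : n3 c T ≤ 1 := by omega
        obtain ⟨w', hw', hw2'⟩ := pick (k := 1) hG (by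
          rw [hWz, hcase]
          have : (n3 c T : ℤ) ≤ 1 := by exact_mod_cast hle
          push_cast
          linarith)
        refine ⟨insert w' T, ?_, ?_, ?_⟩
        · rw [ins T w' hw']; omega
        · rw [ins T w' hw']; omega
        · omega

end Pool.Agent.W446.ZT
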